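import Mathlib

set_option autoImplicit false

namespace Pool.Agent.Results.MP_4780e6_al.OneSided

/-- The matrix over `R` given by a matrix of units. -/
def toMat {R : Type} [Ring R] {v : ℕ} (M : Matrix (Fin v) (Fin v) Rˣ) : Matrix (Fin v) (Fin v) R :=
  Matrix.of fun i j => (M i j : R)

/-- `M*`: the transpose of the matrix of entrywise inverses. -/
def adj {R : Type} [Ring R] {v : ℕ} (M : Matrix (Fin v) (Fin v) Rˣ) : Matrix (Fin v) (Fin v) R :=
  Matrix.of fun i j => ((M j i)⁻¹ : Rˣ)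

def u5 : (ZMod 8)ˣ := ⟨5, 5, by decide, by decide⟩

/-- The one-sided condition does not imply the two-sided one. -/
theorem result :
    ∃ (R : Type) (_ : Ring R) (v : ℕ) (N : Subgroup Rˣ) (M : Matrix (Fin v) (Fin v) Rˣ),
      2 ≤ v ∧ (v : R) ≠ 0 ∧ (∀ i j, M i j ∈ N) ∧
      toMat M * adj M = Matrix.diagonal (fun _ => (v : R)) ∧
      adj M * toMat M ≠ Matrix.diagonal (fun _ => (v : R)) :=
  ⟨ZMod 8, inferInstance, 4, ⊤, !![u5, u5, 1, 1; 1, 1, -1, -1; 1, -1, 1, -1; 1, -1, -1, 1],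
    by norm_num, by decide, fun _ _ => trivial, by decide, by decide⟩

end Pool.Agent.Results.MP_4780e6_al.OneSided
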